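import Pool.Agent.H98.CE.Targets

/-! Row BUP of `cel_modules`: blow-up of the recursion. -/

set_option autoImplicit false

open Filter Topology Pool.Agent.H98.CE

namespace Pool.Agent.H79.CEL

lemma pw_nonneg {f : ℕ → ℝ} (hf : ∀ U, 0 ≤ f U) (m s : ℕ) : 0 ≤ pw f m s := by
  induction m generalizing s with
  | zero =>
    show 0 ≤ if s = 0 then (1 : ℝ) else 0
    split_ifs <;> norm_num
  | succ m ih =>
    show 0 ≤ ∑ j ∈ Finset.range (s + 1), f j * pw f m (s - j)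
    exact Finset.sum_nonneg fun j _ => mul_nonneg (hf j) (ih _)

lemma Fl_nonneg {η : ℝ} (hη : 0 < η) {f : ℕ → ℝ} (hf : ∀ U, 0 ≤ f U) (l U : ℕ) :
    0 ≤ Fl η f l U := by
  induction l generalizing U with
  | zero =>
    show 0 ≤ if U = 0 then 0 else f U
    split_ifs
    · exact le_rfl
    · exact hf U
  | succ l ih =>
    show 0 ≤ if U = 0 then 0 else
      ∑ m ∈ Finset.range (U + 1), η ^ m * pw (Fl η f l) (m + 1) (U + 1)
    split_ifs
    · exact le_rfl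
    · exact Finset.sum_nonneg fun m _ => mul_nonneg (pow_nonneg hη.le m) (pw_nonneg ih _ _)

lemma Fl_zero (η : ℝ) (f : ℕ → ℝ) (l : ℕ) : Fl η f l 0 = 0 := by
  cases l <;> simp [Fl]

theorem pf_BUP (hNA1 : T_NA1) (hNA2 : T_NA2) (hNA5 : T_NA5) : T_BUP := by
  intro f η hη hf hN
  obtain ⟨N, hN⟩ := hN
  by_contra hcon
  have hle : ∀ l N : ℕ, η * ∑ U ∈ Finset.range N, Fl η f l U ≤ 1 := by
    intro l N
    by_contra h
    exact hcon ⟨l, N, not_le.1 h⟩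
  have h0 : ∀ l U, 0 ≤ Fl η f l U := Fl_nonneg hη hf
  have hb : ∀ l N : ℕ, ∑ U ∈ Finset.range N, Fl η f l U ≤ 1 / η := by
    intro l N
    rw [le_div_iff₀ hη, mul_comm]
    exact hle l N
  have hs : ∀ l, Summable (Fl η f l) := fun l => summable_of_sum_range_le (h0 l) (hb l)
  have ht : ∀ l, η * ∑' U, Fl η f l U ≤ 1 := by
    intro l
    have h1 := Real.tsum_le_of_sum_range_le (h0 l) (hb l)
    rw [le_div_iff₀ hη] at h1
    rw [mul_comm]
    exact h1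
  obtain ⟨a, ha⟩ : ∃ a : ℕ → ℝ, ∀ l, a l = η * ∑' U, Fl η f l U := ⟨_, fun _ => rfl⟩
  obtain ⟨b, hb'⟩ : ∃ b : ℕ → ℝ, ∀ l, b l = η * Fl η f l 1 := ⟨_, fun _ => rfl⟩
  obtain ⟨A, hA⟩ : ∃ A : ℕ → ℝ → ℝ, ∀ l z, A l z = η * ∑' U, Fl η f l U * z ^ U :=
    ⟨_, fun _ _ => rfl⟩
  have hrec : ∀ l U, Fl η f (l + 1) U = if U = 0 then 0 else
      ∑ m ∈ Finset.range (U + 1), η ^ m * pw (Fl η f l) (m + 1) (U + 1) := fun l U => rfl
  have h2 := fun l => hNA2 (Fl η f l) (Fl η f (l + 1)) η hη (h0 l) (Fl_zero η f l) (hs l) (ht l)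
    (hs (l + 1)) (hrec l)
  have hab : ∀ l, 0 ≤ a l ∧ a l < 1 ∧ 0 ≤ b l ∧ a l = (1 - a l) * (a (l + 1) + b l) := by
    intro l
    have h3 : a l = (1 - a l) * (a (l + 1) + b l) := by
      rw [ha l, ha (l + 1), hb' l]
      exact (h2 l).1
    refine ⟨?_, ?_, ?_, h3⟩
    · rw [ha]
      exact mul_nonneg hη.le (tsum_nonneg (h0 l))
    · have h4 : a l ≤ 1 := by rw [ha]; exact ht l
      refine lt_of_le_of_ne h4 fun h5 => ?_
      rw [h5] at h3
      linarith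
    · rw [hb']
      exact mul_nonneg hη.le (h0 l 1)
  have hsz : ∀ l z, 0 ≤ z → z < 1 → Summable fun U => Fl η f l U * z ^ U := by
    intro l z hz0 hz1
    refine Summable.of_nonneg_of_le (fun U => mul_nonneg (h0 l U) (pow_nonneg hz0 U))
      (fun U => ?_) (hs l)
    exact mul_le_of_le_one_right (h0 l U) (pow_le_one₀ hz0 hz1.le)
  have hAA : ∀ l z, 0 ≤ z → z < 1 → 0 ≤ A l z ∧ A l z ≤ a l ∧
      A l z = (1 - A l z) * (z * (A (l + 1) z + b l)) := by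
    intro l z hz0 hz1
    have h1 := hNA1 (Fl η f l) (Fl η f (l + 1)) η z hη (h0 l) (Fl_zero η f l) (hs l) (ht l)
      hz0 hz1 (hrec l)
    refine ⟨?_, ?_, ?_⟩
    · rw [hA]
      exact mul_nonneg hη.le (tsum_nonneg fun U => mul_nonneg (h0 l U) (pow_nonneg hz0 U))
    · rw [hA, ha]
      refine mul_le_mul_of_nonneg_left ?_ hη.le
      exact (hsz l z hz0 hz1).tsum_le_tsum
        (fun U => mul_le_of_le_one_right (h0 l U) (pow_le_one₀ hz0 hz1.le)) (hs l)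
    · rw [hA l, hA (l + 1), hb']
      exact h1.2.2
  have hlim : ∀ l, Tendsto (A l) (𝓝[<] 1) (𝓝 (a l)) := by
    intro l
    have h3 : A l = fun z => η * ∑' U, Fl η f l U * z ^ U := funext (hA l)
    rw [h3, ha]
    exact (h2 l).2
  obtain ⟨c, hc1, hc2, hc3⟩ : ∃ c : ℝ, 1 / 2 < c ∧ c ≤ 1 ∧
      c < η * ∑ U ∈ Finset.range N, U * f U := by
    obtain ⟨c, h1, h2⟩ := exists_between (lt_min (by norm_num : (1 : ℝ) / 2 < 1) hN)
    exact ⟨c, h1, (lt_min_iff.1 h2).1.le, (lt_min_iff.1 h2).2⟩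
  refine hNA5 A a b hab hAA hlim c hc1 hc2 ?_
  -- the slope at one
  obtain ⟨G, hG⟩ : ∃ G : ℝ → ℝ, ∀ z, G z = η * ∑ U ∈ Finset.range N,
      f U * ∑ i ∈ Finset.range U, z ^ i := ⟨_, fun _ => rfl⟩
  have hGc : Continuous G := by
    have h3 : G = fun z => η * ∑ U ∈ Finset.range N, f U * ∑ i ∈ Finset.range U, z ^ i :=
      funext hG
    rw [h3]
    fun_prop
  have hG1 : c < G 1 := by
    rw [hG]
    refine lt_of_lt_of_eq hc3 ?_
    congr 1
    apply Finset.sum_congr rfl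
    intro U _
    simp [mul_comm]
  have hev : ∀ᶠ z in 𝓝[<] (1 : ℝ), c < G z :=
    (hGc.tendsto 1).eventually (lt_mem_nhds hG1) |>.filter_mono nhdsWithin_le_nhds
  have hIoo : ∀ᶠ z in 𝓝[<] (1 : ℝ), z ∈ Set.Ioo (0 : ℝ) 1 := Ioo_mem_nhdsLT (by norm_num)
  filter_upwards [hev, hIoo] with z hz hz01
  obtain ⟨hz0, hz1⟩ := hz01
  have h3 : ∑ U ∈ Finset.range N, (Fl η f 0 U - Fl η f 0 U * z ^ U) ≤
      ∑' U, Fl η f 0 U - ∑' U, Fl η f 0 U * z ^ U := by
    rw [← (hs 0).tsum_sub (hsz 0 z hz0.le hz1)]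
    refine ((hs 0).sub (hsz 0 z hz0.le hz1)).sum_le_tsum _ fun U _ => ?_
    have := mul_le_of_le_one_right (h0 0 U) (pow_le_one₀ (n := U) hz0.le hz1.le)
    linarith
  have h4 : ∑ U ∈ Finset.range N, (Fl η f 0 U - Fl η f 0 U * z ^ U) =
      (1 - z) * ∑ U ∈ Finset.range N, f U * ∑ i ∈ Finset.range U, z ^ i := by
    rw [Finset.mul_sum]
    apply Finset.sum_congr rfl
    intro U _
    have h5 := mul_neg_geom_sum z U
    by_cases hU : U = 0
    · subst hU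
      simp [Fl]
    · have h6 : Fl η f 0 U = f U := if_neg hU
      rw [h6]
      linear_combination (-f U) * h5
  rw [h4] at h3
  have h5 : (1 - z) * G z ≤ a 0 - A 0 z := by
    rw [hG, ha, hA]
    have h6 := mul_le_mul_of_nonneg_left h3 hη.le
    linarith
  have h6 : c * (1 - z) ≤ (1 - z) * G z := by
    rw [mul_comm]
    exact mul_le_mul_of_nonneg_left hz.le (by linarith)
  exact h6.trans h5

end Pool.Agent.H79.CEL
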