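import Pool.Agent.H98.CE.Targets

/-! Row NA5 of `cel_modules`: the slope is at most one half. -/

set_option autoImplicit false

open Filter Topology Pool.Agent.H98.CE

namespace Pool.Agent.H79.CEL

theorem pf_NA5 (hNA3 : T_NA3) (hNA4 : T_NA4) : T_NA5 := by
  intro A a b hab hA hlim c hc hc1 hev
  obtain ⟨q, hq⟩ : ∃ q : ℕ → ℝ, ∀ l, q l = ∏ i ∈ Finset.range l, (1 - a i) := ⟨_, fun _ => rfl⟩
  obtain ⟨n1, n2, n3⟩ := hNA3 a b q hab hq
  have hq0 : ∀ l, 0 < q l := fun l => by
    rw [hq]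
    exact Finset.prod_pos fun i _ => by linarith [(hab i).2.1]
  obtain ⟨s, hs⟩ : ∃ s : ℕ → ℝ, ∀ l, s l = ((l : ℝ) + 1) * (b l * q (l + 1)) :=
    ⟨_, fun _ => rfl⟩
  have hs0 : ∀ l, 0 ≤ s l := fun l => by
    rw [hs]
    have := (hab l).2.2.1
    have := hq0 (l + 1)
    positivity
  have hsle : ∀ L, ∑ l ∈ Finset.range L, s l ≤ 1 := fun L => by
    simp only [hs]
    exact n2 L
  have hsum : Summable s := summable_of_sum_range_le hs0 hsle
  obtain ⟨S, hS⟩ : ∃ S : ℝ, S = ∑' l, s l := ⟨_, rfl⟩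
  have hS1 : S ≤ 1 := by
    rw [hS]
    exact Real.tsum_le_of_sum_range_le hs0 hsle
  have hSN : ∀ N, ∑ l ∈ Finset.range N, s l ≤ S := fun N => by
    rw [hS]
    exact hsum.sum_le_tsum _ fun l _ => hs0 l
  have hSt : Tendsto (fun N => ∑ l ∈ Finset.range N, s l) atTop (𝓝 S) := by
    rw [hS]
    exact hsum.hasSum.tendsto_sum_nat
  have hS0 : 0 ≤ S := by
    have := hSN 0
    simpa using this
  -- (1)
  have hA1 : ∀ z, 0 ≤ z → z < 1 → ∀ N, A 0 z = ∑ l ∈ Finset.range N,
      b l * (z ^ (l + 1) * ∏ i ∈ Finset.range (l + 1), (1 - A i z)) +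
      z ^ N * (∏ i ∈ Finset.range N, (1 - A i z)) * A N z := by
    intro z h0 h1 N
    induction N with
    | zero => simp
    | succ N ih =>
      have h := (hA N z h0 h1).2.2
      calc A 0 z = _ := ih
        _ = _ := by
          rw [Finset.sum_range_succ, Finset.prod_range_succ]
          linear_combination (z ^ N * ∏ i ∈ Finset.range N, (1 - A i z)) * h
  -- the main inequality
  have key : ∀ (L : ℕ) (z : ℝ), 0 < z → z < 1 → (∀ i < L, c * (1 - z) ≤ a i - A i z) →
      c * (1 - z) ≤ a 0 - A 0 z → ∀ M : ℕ, c * (1 - z) ≤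
        (1 - z) * (S - c * z ^ L * ∑ l ∈ Finset.range L, s l) + q (L + M) * a (L + M) := by
    intro L z hz0 hz1 hi h0 M
    have hx0 : 0 ≤ c * (1 - z) := mul_nonneg (by linarith) (by linarith)
    have hpos : ∀ i, 0 < 1 - A i z := fun i => by
      have := (hA i z hz0.le hz1).2.1
      have := (hab i).2.1
      linarith
    have hr : ∀ l, q l ≤ ∏ i ∈ Finset.range l, (1 - A i z) := by
      intro l
      rw [hq]
      refine Finset.prod_le_prod (fun i _ => by linarith [(hab i).2.1]) fun i _ => ?_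
      have := (hA i z hz0.le hz1).2.1
      linarith
    have hzl : ∀ n : ℕ, 1 - z ^ n ≤ n * (1 - z) := by
      intro n
      have := one_add_mul_le_pow (show (-2 : ℝ) ≤ z - 1 by linarith) n
      rw [show (1 : ℝ) + (z - 1) = z by ring] at this
      linarith
    -- all terms
    have t1 : ∀ l, b l * (q (l + 1) - z ^ (l + 1) * ∏ i ∈ Finset.range (l + 1), (1 - A i z)) ≤
        (1 - z) * s l := by
      intro l
      have h1 := hr (l + 1)
      have h2 := hzl (l + 1)
      have h3 : 0 ≤ z ^ (l + 1) := by positivity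
      have h4 : z ^ (l + 1) * q (l + 1) ≤
          z ^ (l + 1) * ∏ i ∈ Finset.range (l + 1), (1 - A i z) :=
        mul_le_mul_of_nonneg_left h1 h3
      have h5 : q (l + 1) * (1 - z ^ (l + 1)) ≤ q (l + 1) * (((l + 1 : ℕ) : ℝ) * (1 - z)) :=
        mul_le_mul_of_nonneg_left h2 (hq0 _).le
      have h6 : q (l + 1) - z ^ (l + 1) * ∏ i ∈ Finset.range (l + 1), (1 - A i z) ≤
          q (l + 1) * (((l + 1 : ℕ) : ℝ) * (1 - z)) := by linarith
      calc _ ≤ b l * (q (l + 1) * (((l + 1 : ℕ) : ℝ) * (1 - z))) :=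
            mul_le_mul_of_nonneg_left h6 (hab l).2.2.1
        _ = (1 - z) * s l := by
            rw [hs]
            push_cast
            ring
    -- the first terms
    have t2 : ∀ l < L, b l * (q (l + 1) -
        z ^ (l + 1) * ∏ i ∈ Finset.range (l + 1), (1 - A i z)) ≤
        (1 - z) * (1 - c * z ^ L) * s l := by
      intro l hl
      have h1 : q (l + 1) * (1 + ((l + 1 : ℕ) : ℝ) * (c * (1 - z))) ≤
          ∏ i ∈ Finset.range (l + 1), (1 - A i z) := by
        have e1 : q (l + 1) * (1 + c * (1 - z)) ^ (l + 1) =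
            ∏ i ∈ Finset.range (l + 1), ((1 - a i) * (1 + c * (1 - z))) := by
          rw [Finset.prod_mul_distrib, Finset.prod_const, Finset.card_range, hq]
        have e2 : ∏ i ∈ Finset.range (l + 1), ((1 - a i) * (1 + c * (1 - z))) ≤
            ∏ i ∈ Finset.range (l + 1), (1 - A i z) := by
          refine Finset.prod_le_prod (fun i _ => mul_nonneg (by linarith [(hab i).2.1])
            (by linarith)) fun i hi' => ?_
          have e3 := hi i (lt_of_le_of_lt (Nat.lt_succ_iff.1 (Finset.mem_range.1 hi')) hl)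
          have e4 := (hab i).1
          nlinarith
        have e5 := one_add_mul_le_pow (show (-2 : ℝ) ≤ c * (1 - z) by linarith) (l + 1)
        calc _ ≤ q (l + 1) * (1 + c * (1 - z)) ^ (l + 1) :=
              mul_le_mul_of_nonneg_left e5 (hq0 _).le
          _ ≤ _ := e1.le.trans e2
      have h2 := hzl (l + 1)
      have h3 : z ^ L ≤ z ^ (l + 1) := pow_le_pow_of_le_one hz0.le hz1.le hl
      have h4 : 0 ≤ z ^ (l + 1) := by positivity
      have h5 : z ^ (l + 1) * (q (l + 1) * (1 + ((l + 1 : ℕ) : ℝ) * (c * (1 - z)))) ≤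
          z ^ (l + 1) * ∏ i ∈ Finset.range (l + 1), (1 - A i z) :=
        mul_le_mul_of_nonneg_left h1 h4
      have h6 : z ^ L * (((l + 1 : ℕ) : ℝ) * (c * (1 - z))) ≤
          z ^ (l + 1) * (((l + 1 : ℕ) : ℝ) * (c * (1 - z))) :=
        mul_le_mul_of_nonneg_right h3 (by positivity)
      have h7 : q (l + 1) * (1 - z ^ (l + 1) -
          z ^ (l + 1) * (((l + 1 : ℕ) : ℝ) * (c * (1 - z)))) ≤
          q (l + 1) * (((l + 1 : ℕ) : ℝ) * (1 - z) - z ^ L * (((l + 1 : ℕ) : ℝ) *
            (c * (1 - z)))) :=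
        mul_le_mul_of_nonneg_left (by linarith) (hq0 _).le
      have h8 : q (l + 1) - z ^ (l + 1) * ∏ i ∈ Finset.range (l + 1), (1 - A i z) ≤
          q (l + 1) * (((l + 1 : ℕ) : ℝ) * (1 - z) - z ^ L * (((l + 1 : ℕ) : ℝ) *
            (c * (1 - z)))) := by linarith
      calc _ ≤ b l * (q (l + 1) * (((l + 1 : ℕ) : ℝ) * (1 - z) - z ^ L * (((l + 1 : ℕ) : ℝ) *
            (c * (1 - z))))) := mul_le_mul_of_nonneg_left h8 (hab l).2.2.1
        _ = (1 - z) * (1 - c * z ^ L) * s l := by
            rw [hs]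
            push_cast
            ring
    have hA2 := hA1 z hz0.le hz1 (L + M)
    have hlast : 0 ≤ z ^ (L + M) * (∏ i ∈ Finset.range (L + M), (1 - A i z)) * A (L + M) z :=
      mul_nonneg (mul_nonneg (by positivity) (Finset.prod_nonneg fun i _ => (hpos i).le))
        (hA (L + M) z hz0.le hz1).1
    have hn1 := n1 (L + M)
    have hsplit : ∑ l ∈ Finset.range (L + M), b l * (q (l + 1) -
        z ^ (l + 1) * ∏ i ∈ Finset.range (l + 1), (1 - A i z)) ≤
        (1 - z) * (1 - c * z ^ L) * ∑ l ∈ Finset.range L, s l +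
        (1 - z) * ∑ m ∈ Finset.range M, s (L + m) := by
      rw [Finset.sum_range_add, Finset.mul_sum, Finset.mul_sum]
      exact add_le_add (Finset.sum_le_sum fun l hl => t2 l (Finset.mem_range.1 hl))
        (Finset.sum_le_sum fun m _ => t1 (L + m))
    have hdiff : ∑ l ∈ Finset.range (L + M), b l * (q (l + 1) -
        z ^ (l + 1) * ∏ i ∈ Finset.range (l + 1), (1 - A i z)) =
        ∑ l ∈ Finset.range (L + M), b l * q (l + 1) - ∑ l ∈ Finset.range (L + M),
          b l * (z ^ (l + 1) * ∏ i ∈ Finset.range (l + 1), (1 - A i z)) := by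
      rw [← Finset.sum_sub_distrib]
      exact Finset.sum_congr rfl fun l _ => by ring
    have hSS := hSN (L + M)
    rw [Finset.sum_range_add] at hSS
    have hfin : (1 - z) * (∑ l ∈ Finset.range L, s l + ∑ m ∈ Finset.range M, s (L + m)) ≤
        (1 - z) * S := mul_le_mul_of_nonneg_left hSS (by linarith)
    rw [hdiff] at hsplit
    nlinarith
  -- the limits
  have hB : ∀ L : ℕ, c ≤ S - c * ∑ l ∈ Finset.range L, s l := by
    intro L
    have h1 : ∀ᶠ z in 𝓝[<] (1 : ℝ), ∀ i ∈ Finset.range L, c * (1 - z) ≤ a i - A i z :=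
      (Filter.eventually_all_finset (Finset.range L)).2 fun i _ =>
        hNA4 A a b hab hA hlim c hc hev i
    have h2 : ∀ᶠ z in 𝓝[<] (1 : ℝ), z ∈ Set.Ioo (0 : ℝ) 1 := Ioo_mem_nhdsLT (by norm_num)
    have h3 : ∀ᶠ z in 𝓝[<] (1 : ℝ), c ≤ S - c * z ^ L * ∑ l ∈ Finset.range L, s l := by
      filter_upwards [h1, h2, hev] with z g1 g2 g3
      have g4 := key L z g2.1 g2.2 (fun i hi => g1 i (Finset.mem_range.2 hi)) g3
      have g5 : Tendsto (fun M => (1 - z) * (S - c * z ^ L * ∑ l ∈ Finset.range L, s l) +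
          q (L + M) * a (L + M)) atTop
          (𝓝 ((1 - z) * (S - c * z ^ L * ∑ l ∈ Finset.range L, s l) + 0)) := by
        refine tendsto_const_nhds.add ?_
        have g6 : Tendsto (fun M : ℕ => L + M) atTop atTop :=
          tendsto_atTop_mono (fun M => Nat.le_add_left M L) tendsto_id
        exact n3.comp g6
      have g7 := ge_of_tendsto' g5 g4
      rw [add_zero, mul_comm c] at g7
      exact le_of_mul_le_mul_left g7 (by linarith [g2.2])
    have h4 : Tendsto (fun z : ℝ => S - c * z ^ L * ∑ l ∈ Finset.range L, s l) (𝓝[<] (1 : ℝ))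
        (𝓝 (S - c * 1 ^ L * ∑ l ∈ Finset.range L, s l)) := by
      have : Continuous fun z : ℝ => S - c * z ^ L * ∑ l ∈ Finset.range L, s l := by fun_prop
      exact (this.tendsto 1).mono_left nhdsWithin_le_nhds
    have h5 := ge_of_tendsto h4 h3
    simpa using h5
  have hC : c ≤ S - c * S := ge_of_tendsto' (tendsto_const_nhds.sub (hSt.const_mul c)) hB
  nlinarith

end Pool.Agent.H79.CEL
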